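import Mathlib
import Pool.Agent.TH743.LF.D

/-!
A computable field with a low ordering such that the ordered field has no computable copy.
-/

set_option autoImplicit false

namespace Pool.Agent.Results.MP_1308e3_lc.LowOrdering

open Pool.Agent.TH743.LF

/-- There are a computable field `D` and a low ordering `r` of `D` such that the ordered field
`(D, r)` has no computable copy. -/
theorem result : ∃ (D : Set ℕ) (_ : Field D) (r : D → D → Prop),
    CompField D ∧ IsOrdering r ∧ Low (ordSet r) ∧ ¬ HasComputableCopy r := by
  obtain ⟨D, inst, h1, -, r, h2, h3, h4⟩ := main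
  exact ⟨D, inst, r, h1, h2, h3, h4⟩

end Pool.Agent.Results.MP_1308e3_lc.LowOrdering
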